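import Pool.Agent.Helper51.SigLeo.Defs

/-!
# Leopoldt's conjecture in cyclic extensions of degree `p` (MP_fc6b1e_nt): definitions

`Ω` is the algebraic closure of the number field `F`, `M` and `N` are subfields of `Ω`, finite over `F`;
`M ⊔ N` is their compositum. `L` is Iwasawa's logarithm on `kˣ`, `k = ℂ_p`.
-/

namespace Pool.Agent.Helper76.LD2

open NumberField Module IsDedekindDomain TensorProduct Pool.Agent.Helper51.SigLeo

section leopoldt

variable {p : ℕ} {k : Type} [NormedField k]

/-- The kernel of the `p`-adic logarithm on `k ⊗ (𝓞_N)ˣ`: the elements which are killed by the `k`-linear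
extensions of all the maps `u ↦ L(τ(u))`, for the embeddings `τ : N → k`. -/
noncomputable def logKer (L : IwasawaLog p k) (N : Type) [Field N] :
    Submodule k (k ⊗[ℤ] Additive (𝓞 N)ˣ) :=
  ⨅ τ : N →+* k, LinearMap.ker (extHom (logUnits L τ))

/-- The Leopoldt defect of `N` at `p`: the dimension of the kernel of the `p`-adic logarithm. -/
noncomputable def defect (L : IwasawaLog p k) (N : Type) [Field N] : ℕ :=
  finrank k (logKer L N)

/-- Leopoldt's conjecture for the number field `N` and the prime `p`: the `p`-adic logarithm is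
injective. -/
def Leopoldt (L : IwasawaLog p k) (N : Type) [Field N] : Prop :=
  logKer L N = ⊥

/-- The `Σ`-Leopoldt conjecture for all the totally complex quadratic extensions `H` of the totally real
field `R`, for all the totally complex subfields `K` of `H` such that `H/K` is Galois, all the characters `χ` of
`Gal(H/K)`, all CM types `S` of `K` and all the embeddings `ι_∞`, `ι_p`. -/
def SigmaAll (L : IwasawaLog p k) (R : Type) [Field R] : Prop :=
  ∀ (H K : Type) [Field H] [NumberField H] [IsTotallyComplex H] [Algebra R H] [Field K]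
    [NumberField K] [IsTotallyComplex K] [Algebra K H] [IsGalois K H], finrank R H = 2 →
  ∀ (χ : (H ≃ₐ[K] H) →* kˣ) (ιinf : AlgebraicClosure ℚ →+* ℂ) (ιp : AlgebraicClosure ℚ →+* k)
    (S : Set (K →+* ℂ)), IsCMType S →
    InjectiveOn (finrank K H) χ unitsHom (logSigma ιinf ιp S L)

/-- The same, only for the characters `χ` such that `χ(g) ≠ 1` for some `g ∈ Gal(H/K)` which is the identity
on the subset `T` of `R`. -/
def SigmaNew (L : IwasawaLog p k) (R : Type) [Field R] (T : Set R) : Prop :=
  ∀ (H K : Type) [Field H] [NumberField H] [IsTotallyComplex H] [Algebra R H] [Field K]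
    [NumberField K] [IsTotallyComplex K] [Algebra K H] [IsGalois K H], finrank R H = 2 →
  ∀ (χ : (H ≃ₐ[K] H) →* kˣ),
    (∃ g : H ≃ₐ[K] H, (∀ x ∈ T, g (algebraMap R H x) = algebraMap R H x) ∧ χ g ≠ 1) →
  ∀ (ιinf : AlgebraicClosure ℚ →+* ℂ) (ιp : AlgebraicClosure ℚ →+* k) (S : Set (K →+* ℂ)),
    IsCMType S → InjectiveOn (finrank K H) χ unitsHom (logSigma ιinf ιp S L)

/-- `M` is an abelian extension of a number field with exactly one infinite place, that is, of `ℚ` or of an
imaginary quadratic field. -/
def AbelianBase (M : Type) [Field M] : Prop :=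
  ∃ (K : Type) (_ : Field K) (_ : NumberField K) (_ : Algebra K M),
    IsAbelianGalois K M ∧ Subsingleton (InfinitePlace K)

/-- The conclusions for `M` and an extension `R` of `M`; `T` is the image of `M` in `R`. The defect of `R` is
that of `M`. Leopoldt's conjecture holds for `R` if it holds for `M`, and in any case if `M` is abelian over `ℚ`
or over an imaginary quadratic field; if moreover `M` is totally real, the `Σ`-Leopoldt conjecture holds for all
the characters of CM fields `H` which are quadratic over `R`. If `M` is totally real, the `Σ`-Leopoldt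
conjecture holds for those of them which are not trivial on the automorphisms which are the identity on `M`. -/
structure Good (L : IwasawaLog p k) (M R : Type) [Field M] [Field R] (T : Set R) : Prop where
  defect_eq : defect L R = defect L M
  leopoldt : Leopoldt L M ∨ AbelianBase M → Leopoldt L R
  sigmaAll : Leopoldt L M ∨ AbelianBase M → IsTotallyReal M → SigmaAll L R
  sigmaNew : IsTotallyReal M → SigmaNew L R T

end leopoldt

section family

variable (p : ℕ) [Fact p.Prime] {F : Type} [Field F]

/-- `g` is in the decomposition group of the place of `Ω` above `p` which is induced by `τ : Ω → ℂ_p`. -/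
def InDec (τ : AlgebraicClosure F →+* ℂ_[p])
    (g : AlgebraicClosure F ≃ₐ[F] AlgebraicClosure F) : Prop :=
  ∀ x : AlgebraicClosure F, ‖τ (g x)‖ = ‖τ x‖

/-- The cyclic extensions of `F` of degree `p`. -/
def Cyc (F : Type) [Field F] : Set (IntermediateField F (AlgebraicClosure F)) :=
  {N | finrank F N = p ∧ IsGalois F N}

/-- `N` and `N'` have the same completions above `p`: the decomposition groups above `p` have the same
intersections with `Gal(Ω/N)` and with `Gal(Ω/N')`. -/
def SameP (N N' : IntermediateField F (AlgebraicClosure F)) : Prop :=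
  ∀ (τ : AlgebraicClosure F →+* ℂ_[p]) (g : AlgebraicClosure F ≃ₐ[F] AlgebraicClosure F),
    InDec p τ g → ((∀ x ∈ N, g x = x) ↔ ∀ x ∈ N', g x = x)

/-- The set `A` of cyclic extensions of degree `p` of `F` is not empty and given by conditions on the
completions above `p`. -/
structure IsFamily (A : Set (IntermediateField F (AlgebraicClosure F))) : Prop where
  subset : A ⊆ Cyc p F
  nonempty : A.Nonempty
  same : ∀ N ∈ A, ∀ N' ∈ Cyc p F, SameP p N N' → N' ∈ A

/-- The function `e` of the fields `N` has values `≥ 1` and depends only on the completions of `N` above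
`p`. -/
structure IsFactor (e : IntermediateField F (AlgebraicClosure F) → ℕ) : Prop where
  one_le : ∀ N, 1 ≤ e N
  same : ∀ N ∈ Cyc p F, ∀ N' ∈ Cyc p F, SameP p N N' → e N = e N'

end family

section count

variable (p : ℕ)

/-- The product of the norms of the primes `v` of `F` which are not above `p` and are ramified in `N`, that is,
`v 𝓞_N ⊆ V²` for some prime `V` of `N`. -/
noncomputable def tame (F N : Type) [Field F] [NumberField F] [Field N] [Algebra F N] : ℕ :=
  ∏ᶠ (v : HeightOneSpectrum (𝓞 F)) (_ : (p : 𝓞 F) ∉ v.asIdeal ∧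
    ∃ V : HeightOneSpectrum (𝓞 N), v.asIdeal.map (algebraMap (𝓞 F) (𝓞 N)) ≤ V.asIdeal ^ 2),
    Ideal.absNorm v.asIdeal

/-- The number of the `N ∈ A` with `tame p F N * e N ≤ X`. -/
noncomputable def count {F : Type} [Field F] [NumberField F]
    (e : IntermediateField F (AlgebraicClosure F) → ℕ)
    (A : Set (IntermediateField F (AlgebraicClosure F))) (X : ℕ) : ℝ :=
  {N | N ∈ A ∧ tame p F N * e N ≤ X}.ncard

/-- The order of `p` modulo `n`. -/
noncomputable def ordMod (n : ℕ) : ℕ :=
  sInf {f : ℕ | 0 < f ∧ n ∣ p ^ f - 1}

/-- The sum over the elements `g` of `Gal(M/F)` of `1 / (f Q^r (Q - 1))`, where `f` is the order of `p` modulo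
the order of `g`, `Q = p^f` and `r` is the number of the complex places of `F`. For `M = F` it is
`1 / (p^r (p - 1))`. -/
noncomputable def theta (F M : Type) [Field F] [NumberField F] [Field M] [Algebra F M] : ℝ :=
  ∑ᶠ g : M ≃ₐ[F] M, 1 / (ordMod p (orderOf g) * (((p : ℝ) ^ ordMod p (orderOf g)) ^
    InfinitePlace.nrComplexPlaces F * ((p : ℝ) ^ ordMod p (orderOf g) - 1)))

end count

/-- The conclusions for `M` and `N`. -/
def GoodAt {p : ℕ} {k : Type} [NormedField k] (L : IwasawaLog p k) {F : Type} [Field F]
    (M N : IntermediateField F (AlgebraicClosure F)) : Prop :=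
  Good L M ↥(M ⊔ N) {x | (x : AlgebraicClosure F) ∈ M}

end Pool.Agent.Helper76.LD2
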