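import Pool.Agent.Helper76.LD2.Main
import Pool.Agent.Helper38.WY.AsmD

/-!
# Leopoldt's conjecture in cyclic extensions of degree `p`: the theorem without hypotheses
-/

set_option autoImplicit false

namespace Pool.Agent.Helper76.LD2

open NumberField Module Pool.Agent.Helper51.SigLeo Pool.Agent.Helper38.WY

theorem l_den2' : Pool.Agent.Helper42.WY.L_DEN2 :=
  Pool.Agent.Helper42.WY.l_den2 a_ysel' a_yext a_fline a_zgl1 a_zgl0

theorem main_ld2' (p : ℕ) [Fact p.Prime] (F : Type)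
    [Field F] [NumberField F] (M : IntermediateField F (AlgebraicClosure F))
    [FiniteDimensional F M] [IsAbelianGalois F M]
    (hcop : (finrank F M).Coprime p) (hμ : ¬ ∃ ξ : M, IsPrimitiveRoot ξ p)
    (L : IwasawaLog p ℂ_[p]) (A : Set (IntermediateField F (AlgebraicClosure F)))
    (hA : IsFamily p A) (e : IntermediateField F (AlgebraicClosure F) → ℕ)
    (he : IsFactor p e) :
    (∀ X : ℕ, {N | N ∈ Cyc p F ∧ tame p F N * e N ≤ X}.Finite) ∧
    (∀ η : ℝ, 0 < η → ∀ᶠ X : ℕ in Filter.atTop,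
      count p e {N | N ∈ A ∧ ¬ GoodAt L M N} X ≤ (theta p F M + η) * count p e A X) ∧
    (∃ δ : ℝ, 0 < δ ∧ ∀ᶠ X : ℕ in Filter.atTop,
      0 < count p e (Cyc p F) X ∧ δ * count p e (Cyc p F) X ≤ count p e A X) :=
  main_ld2 l_den2' p F M hcop hμ L A hA e he

end Pool.Agent.Helper76.LD2
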