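import Pool.Agent.Helper76.LD2.Defs
import Pool.Agent.Helper76.LEO.Main
import Pool.Agent.Helper42.WY.LDen2
import Pool.Agent.Helper38.FW.Main

/-!
# Leopoldt's conjecture in cyclic extensions of degree `p`: the theorem with the definitions of `LD2`
-/

set_option autoImplicit false

namespace Pool.Agent.Helper76.LD2

open NumberField Module TensorProduct Pool.Agent.Helper51.SigLeo

section equiv

variable {F : Type} [Field F] {p : ℕ} [hpF : Fact p.Prime]

theorem abelianBase_iff (M : Type) [Field M] :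
    AbelianBase M ↔ Pool.Agent.Helper76.LEO.AbelianBase M := by
  constructor
  · rintro ⟨K, i1, i2, i3, h1, h2⟩
    exact ⟨K, i1, i2, i3, h1.toIsGalois, fun g h ↦ h1.toIsMulCommutative.is_comm.comm g h,
      fun v w ↦ Subsingleton.elim v w⟩
  · rintro ⟨K, i1, i2, i3, h1, h2, h3⟩
    exact ⟨K, i1, i2, i3, { toIsGalois := h1, toIsMulCommutative := IsMulCommutative.of_comm h2 },
      ⟨h3⟩⟩

theorem good_of {L : IwasawaLog p ℂ_[p]} {M N : IntermediateField F (AlgebraicClosure F)}
    (h : Pool.Agent.Helper76.LEO.Good L M N) : GoodAt L M N :=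
  { defect_eq := h.defect_eq
    leopoldt := fun h1 ↦ h.leopoldt (h1.imp_right (abelianBase_iff M).1)
    sigmaAll := fun h1 h2 ↦ h.sigmaAll (h1.imp_right (abelianBase_iff M).1) h2
    sigmaNew := fun h2 ↦ h.sigmaNew h2 }

theorem isFamily_to {A : Set (IntermediateField F (AlgebraicClosure F))} (h : IsFamily p A) :
    Pool.Agent.Helper42.WY.FamA p A :=
  { subset := h.subset
    nonempty := h.nonempty
    same := h.same }

theorem isFactor_to {e : IntermediateField F (AlgebraicClosure F) → ℕ} (h : IsFactor p e) :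
    Pool.Agent.Helper76.LEO.IsFactor p e :=
  { one_le := h.one_le
    same := h.same }

end equiv

section theta

variable {F : Type} [Field F] [NumberField F] {p : ℕ} [hpF : Fact p.Prime]

theorem ordMod_eq {m : ℕ} (hm : 0 < m) (hc : m.Coprime p) :
    orderOf (p : ZMod m) = ordMod p m :=
  Pool.Agent.Helper38.FW.orderOf_zmod hm hc hpF.out.pos

theorem theta_eq (M : IntermediateField F (AlgebraicClosure F)) [FiniteDimensional F M]
    [IsGalois F M] (hM : ∀ g h : M ≃ₐ[F] M, g * h = h * g) (hcop : (finrank F M).Coprime p) :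
    Pool.Agent.Helper76.LEO.theta p M = theta p F M := by
  let hG : CommGroup (M ≃ₐ[F] M) := { (inferInstance : Group (M ≃ₐ[F] M)) with mul_comm := hM }
  obtain ⟨E⟩ := @CommGroup.monoidHom_mulEquiv_of_hasEnoughRootsOfUnity (M ≃ₐ[F] M) ℂ_[p] hG _ _ _
  unfold Pool.Agent.Helper76.LEO.theta theta
  rw [← finsum_comp_equiv E.toEquiv]
  refine finsum_congr fun χ ↦ ?_
  have h1 : orderOf (E.toEquiv χ) = orderOf χ := orderOf_injective E.toMonoidHom E.injective χ
  have h2 : orderOf (E.toEquiv χ) ∣ finrank F M := by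
    rw [← IsGalois.card_aut_eq_finrank F M]
    exact orderOf_dvd_natCard _
  have h3 : (orderOf χ).Coprime p := by
    rw [h1] at h2
    exact hcop.coprime_dvd_left h2
  have h4 : 0 < orderOf χ := by
    rw [← h1]
    exact orderOf_pos _
  rw [h1, ordMod_eq h4 h3]

end theta

theorem main_ld2 (hDEN : Pool.Agent.Helper42.WY.L_DEN2) (p : ℕ) [Fact p.Prime] (F : Type)
    [Field F] [NumberField F] (M : IntermediateField F (AlgebraicClosure F))
    [FiniteDimensional F M] [IsAbelianGalois F M]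
    (hcop : (finrank F M).Coprime p) (hμ : ¬ ∃ ξ : M, IsPrimitiveRoot ξ p)
    (L : IwasawaLog p ℂ_[p]) (A : Set (IntermediateField F (AlgebraicClosure F)))
    (hA : IsFamily p A) (e : IntermediateField F (AlgebraicClosure F) → ℕ)
    (he : IsFactor p e) :
    (∀ X : ℕ, {N | N ∈ Cyc p F ∧ tame p F N * e N ≤ X}.Finite) ∧
    (∀ η : ℝ, 0 < η → ∀ᶠ X : ℕ in Filter.atTop,
      count p e {N | N ∈ A ∧ ¬ GoodAt L M N} X ≤ (theta p F M + η) * count p e A X) ∧
    (∃ δ : ℝ, 0 < δ ∧ ∀ᶠ X : ℕ in Filter.atTop,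
      0 < count p e (Cyc p F) X ∧ δ * count p e (Cyc p F) X ≤ count p e A X) := by
  have hM : ∀ g h : M ≃ₐ[F] M, g * h = h * g := fun g h ↦
    (inferInstance : IsAbelianGalois F M).toIsMulCommutative.is_comm.comm g h
  obtain ⟨ιinf, -⟩ := exists_extend_embedding (K := F) (H := AlgebraicClosure F)
    (Classical.arbitrary (F →+* ℂ))
  obtain ⟨ιp, -⟩ := exists_extend_embedding (K := F) (H := AlgebraicClosure F)
    (Classical.arbitrary (F →+* ℂ_[p]))
  have hp2 : p ≠ 2 := by
    intro h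
    subst h
    exact hμ ⟨-1, IsPrimitiveRoot.neg_one 0 (by norm_num)⟩
  obtain ⟨h1, h2, h3⟩ := hDEN p F M hM hcop hμ L A (isFamily_to hA) e (isFactor_to he) ιinf ιp
  refine ⟨h1, fun η hη ↦ ?_, h3⟩
  filter_upwards [h2 η hη] with X hX
  rw [theta_eq M hM hcop] at hX
  refine le_trans ?_ hX
  refine Nat.cast_le.2 (Set.ncard_le_ncard ?_ ?_)
  · rintro N ⟨⟨hNA, hN⟩, hNX⟩
    exact ⟨⟨hNA, fun hg ↦ hN (good_of (Pool.Agent.Helper76.LEO.l_good p F M hM hcop hp2 L N
      (hA.subset hNA) ιinf ιp hg))⟩, hNX⟩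
  · refine (h1 X).subset ?_
    rintro N ⟨⟨hNA, -⟩, hNX⟩
    exact ⟨hA.subset hNA, hNX⟩

end Pool.Agent.Helper76.LD2
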